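import Pool.Agent.Helper51.RP.Goals2

/-!
# Packet RP-UPB: the upper bound for the S-units, all primes p

`S_LEM` applied to the group of `S`-units with the endomorphism of `S_EIG`. Port of the file of
Helper19 for `p = 2`.
-/

namespace Pool.Agent.Helper96.RP

open NumberField Polynomial Module IsDedekindDomain TensorProduct Pool.Agent.Helper51.SigLeo
open Pool.Agent.Helper51.RP

theorem mem_unit_of_pow {M : Type} [Field M] [NumberField M] {S : Set (HeightOneSpectrum (𝓞 M))}
    {x y : Mˣ} {p : ℕ} (hp : p ≠ 0) (h : x = y ^ p) (hx : x ∈ S.unit M) : y ∈ S.unit M := by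
  intro v hv
  have h1 := hx v hv
  rw [h] at h1
  have h2 : (v.valuation M) ((y : M)) ^ p = 1 := by
    rw [← map_pow]
    simpa using h1
  have h3 : (v.valuation M) ((y : M)) = 1 := by
    rcases lt_trichotomy ((v.valuation M) ((y : M))) 1 with h4 | h4 | h4
    · exact absurd h2 (pow_lt_one' h4 hp).ne
    · exact h4
    · exact absurd h2 (one_lt_pow' h4 hp).ne'
  exact h3

theorem s_upb (h1 : S_LEM) (h2 : S_EIG) : Pool.Agent.Helper51.RP.S_UPB := by
  intro p hpf k _ _ K M _ _ _ _ _ _ _ m d s₀ δ ζ Φ P hΦ hord hfin hdeg hTor S hSfin hSst hSfree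
    F hF hne
  classical
  have hp0 : p ≠ 0 := hpf.out.ne_zero
  have hm1 : 0 < m := lt_trans zero_lt_one hΦ.one_lt
  have : NeZero m := ⟨hm1.ne'⟩
  have hζ' : IsPrimitiveRoot (Complex.exp (2 * Real.pi * Complex.I / m)) m :=
    Complex.isPrimitiveRoot_exp m hm1.ne'
  obtain ⟨D, hD, hfinA, hrank⟩ := h2 K M m d s₀ δ hord hfin hdeg hm1 S hSfin hSst hSfree _ hζ'
  have := hfinA
  obtain ⟨i, hi, hTor⟩ := hTor
  set φ : Mˣ →* Mˣ := Units.map ((δ : M →+* M) : M →* M) with hφ
  have hδm : δ ^ m = 1 := by rw [← hord]; exact pow_orderOf_eq_one δ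
  -- the iterates
  have hiter : ∀ (j : ℕ) (x : Additive (S.unit M)),
      (((D^[j] x).toMul : S.unit M) : Mˣ) =
        Units.map (((δ ^ j : M ≃ₐ[K] M) : M →+* M) : M →* M) ((x.toMul : S.unit M) : Mˣ) := by
    intro j
    induction j with
    | zero => intro x; ext; simp
    | succ j ih =>
      intro x
      rw [Function.iterate_succ', Function.comp_apply]
      have h3 := hD (D^[j] x).toMul
      rw [ofMul_toMul, ih x] at h3
      rw [h3]
      ext
      rw [hφ, pow_succ']
      simp only [Units.coe_map, MonoidHom.coe_coe, RingHom.coe_coe]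
      rfl
  have hDm : ∀ x : Additive (S.unit M), D^[m] x = x := by
    intro x
    apply Additive.toMul.injective
    apply Subtype.ext
    rw [hiter m x, hδm]
    ext
    simp
  have hfix : ∀ (x : Additive (S.unit M)) (n : ℕ), p ^ n • x = 0 → D x = i • x := by
    intro x n hx
    apply Additive.toMul.injective
    apply Subtype.ext
    have h3 := hiter 1 x
    rw [Function.iterate_one] at h3
    rw [h3]
    have h4 : ((x.toMul : S.unit M) : Mˣ) ^ (p ^ n) = 1 := by
      have h5 := congrArg (fun z : Additive (S.unit M) => ((z.toMul : S.unit M) : Mˣ)) hx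
      simpa using h5
    have h6 : (((x.toMul : S.unit M) : Mˣ) : M) ^ (p ^ n) = 1 := by
      have h7 := congrArg Units.val h4
      simpa using h7
    ext
    simpa using hTor _ n h6
  -- the finset
  set f : {x // x ∈ F} → Additive (S.unit M) :=
    fun x => Additive.ofMul (⟨x.1, (hF x.1 x.2).1⟩ : S.unit M) with hf
  have hfinj : Function.Injective f := by
    intro x y hxy
    apply Subtype.ext
    have := congrArg (fun z : Additive (S.unit M) => ((z.toMul : S.unit M) : Mˣ)) hxy
    simpa [hf] using this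
  set F' : Finset (Additive (S.unit M)) := F.attach.map ⟨f, hfinj⟩ with hF'
  have hcard : F'.card = F.card := by simp [hF']
  have key := h1 p k m ζ Φ P hΦ (Additive (S.unit M)) D i hDm hfix hi _ hζ' F' ?_ ?_
  · rw [hcard] at key
    exact key.trans (Nat.pow_le_pow_right (Nat.pos_of_ne_zero hp0) (Nat.mul_le_mul_left _ hrank))
  · intro x hx
    obtain ⟨z, -, rfl⟩ := Finset.mem_map.1 hx
    obtain ⟨hz1, y, hy⟩ := hF z.1 z.2
    have hcoe : ∀ (s : Finset ℕ),
        (((∑ j ∈ s, (P.coeff j).val • D^[j] (f z)).toMul : S.unit M) : Mˣ) =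
        ∏ j ∈ s, (Units.map (((δ ^ j : M ≃ₐ[K] M) : M →+* M) : M →* M) z.1) ^ (P.coeff j).val := by
      intro s
      induction s using Finset.induction_on with
      | empty => simp
      | insert a s ha ih =>
        rw [Finset.sum_insert ha, Finset.prod_insert ha, ← ih, toMul_add, Subgroup.coe_mul,
          toMul_nsmul, Subgroup.coe_pow, hiter]
        simp [hf]
    have hpol : (((∑ j ∈ P.support, (P.coeff j).val • D^[j] (f z)).toMul : S.unit M) : Mˣ)
        = y ^ p := by
      rw [hcoe, ← hy, pol, MonoidHom.finsetProd_apply]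
      rfl
    have hyS : y ∈ S.unit M := by
      refine mem_unit_of_pow (x := y ^ p) hp0 rfl ?_
      rw [← hpol]
      exact Subtype.property _
    refine ⟨Additive.ofMul (⟨y, hyS⟩ : S.unit M), ?_⟩
    apply Additive.toMul.injective
    apply Subtype.ext
    show (((∑ j ∈ P.support, (P.coeff j).val • D^[j] (f z)).toMul : S.unit M) : Mˣ) = _
    rw [hpol]
    simp
  · intro x hx y hy hxy
    obtain ⟨z, -, rfl⟩ := Finset.mem_map.1 hx
    obtain ⟨w, -, rfl⟩ := Finset.mem_map.1 hy
    rintro ⟨b, hb⟩
    have hzw : z.1 ≠ w.1 := by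
      intro h
      exact hxy (congrArg f (Subtype.ext h))
    refine hne z.1 z.2 w.1 w.2 hzw ⟨((b.toMul : S.unit M) : Mˣ), ?_⟩
    have h3 := congrArg (fun z : Additive (S.unit M) => ((z.toMul : S.unit M) : Mˣ)) hb
    have h4 : z.1 = w.1 * ((b.toMul : S.unit M) : Mˣ) ^ p := by
      simpa [hf] using h3
    rw [h4, mul_comm, mul_div_assoc, div_self', mul_one]

end Pool.Agent.Helper96.RP
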