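import Pool.Agent.Helper26.RP.Goals

/-!
# Degenerate cuts
-/

noncomputable section

namespace RP.PkDEG

open MeasureTheory Filter Topology

theorem closed_HL (α β γ : ℝ) : IsClosed (HL α β γ) := by
  unfold HL
  exact isClosed_le (by fun_prop) continuous_const

theorem closed_HR (α β γ : ℝ) : IsClosed (HR α β γ) := by
  unfold HR
  exact isClosed_le continuous_const (by fun_prop)

theorem convex_HL (α β γ : ℝ) : Convex ℝ (HL α β γ) := by
  intro x hx y hy a b ha hb hab
  have h1 : α * x.1 + β * x.2 ≤ γ := hx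
  have h2 : α * y.1 + β * y.2 ≤ γ := hy
  show α * (a • x + b • y).1 + β * (a • x + b • y).2 ≤ γ
  simp only [Prod.fst_add, Prod.snd_add, Prod.smul_fst, Prod.smul_snd, smul_eq_mul]
  have h3 := mul_le_mul_of_nonneg_left h1 ha
  have h4 := mul_le_mul_of_nonneg_left h2 hb
  have h5 : a * γ + b * γ = γ := by rw [← add_mul, hab, one_mul]
  nlinarith

theorem convex_HR (α β γ : ℝ) : Convex ℝ (HR α β γ) := by
  intro x hx y hy a b ha hb hab
  have h1 : γ ≤ α * x.1 + β * x.2 := hx
  have h2 : γ ≤ α * y.1 + β * y.2 := hy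
  show γ ≤ α * (a • x + b • y).1 + β * (a • x + b • y).2
  simp only [Prod.fst_add, Prod.snd_add, Prod.smul_fst, Prod.smul_snd, smul_eq_mul]
  have h3 := mul_le_mul_of_nonneg_left h1 ha
  have h4 := mul_le_mul_of_nonneg_left h2 hb
  have h5 : a * γ + b * γ = γ := by rw [← add_mul, hab, one_mul]
  nlinarith

theorem null_of_int {s : Set E} (hs : Convex ℝ s) (h : ¬ (interior s).Nonempty) :
    volume s = 0 := by
  rw [Set.not_nonempty_iff_eq_empty] at h
  have h1 : s ⊆ frontier s := by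
    have h2 := subset_closure (s := s)
    rw [closure_eq_interior_union_frontier, h, Set.empty_union] at h2
    exact h2
  exact measure_mono_null h1 (hs.addHaar_frontier volume)

theorem main {K A B : Set E} (hK : Body K) (hA : Convex ℝ A) (hA' : IsClosed A)
    (hB : Convex ℝ B) (hB' : IsClosed B) (hAB : ∀ p, p ∈ A ∨ p ∈ B) (h : ¬ Body (K ∩ A)) :
    Body (K ∩ B) ∧ ar (K ∩ A) = 0 ∧ ar (K ∩ B) = ar K ∧ ∀ n, w n (K ∩ B) = w n K := by
  have h1 : volume (K ∩ A) = 0 := by
    refine null_of_int (hK.conv.inter hA) fun h2 => h ⟨hK.conv.inter hA, ?_, h2⟩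
    exact hK.cpt.inter_right hA'
  have h2 : K ⊆ (K ∩ B) ∪ (K ∩ A) := fun p hp => (hAB p).elim (fun h => Or.inr ⟨hp, h⟩)
    fun h => Or.inl ⟨hp, h⟩
  have h3 : volume (K ∩ B) = volume K := by
    refine le_antisymm (measure_mono Set.inter_subset_left) ?_
    calc volume K ≤ volume ((K ∩ B) ∪ (K ∩ A)) := measure_mono h2
      _ ≤ volume (K ∩ B) + volume (K ∩ A) := measure_union_le _ _
      _ = volume (K ∩ B) := by rw [h1, add_zero]
  have h4 : 0 < volume K := (isOpen_interior.measure_pos volume hK.int).trans_le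
    (measure_mono interior_subset)
  have h5 : ∀ n, vc n (K ∩ B) = vc n K := by
    intro n
    refine le_antisymm (measure_mono fun x hx => ⟨fun i => (hx.1 i).1, hx.2⟩) ?_
    have h6 : {x : Fin n → E | (∀ i, x i ∈ K) ∧ Cl (finRotate n) x} ⊆
        {x : Fin n → E | (∀ i, x i ∈ K ∩ B) ∧ Cl (finRotate n) x} ∪
          ⋃ i : Fin n, Function.eval i ⁻¹' (K ∩ A) := by
      intro x hx
      by_cases h7 : ∀ i, x i ∈ B
      · exact Or.inl ⟨fun i => ⟨hx.1 i, h7 i⟩, hx.2⟩
      · push Not at h7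
        obtain ⟨i, hi⟩ := h7
        exact Or.inr (Set.mem_iUnion.2 ⟨i, hx.1 i, (hAB _).resolve_right hi⟩)
    have h7 : volume (⋃ i : Fin n, (Function.eval i ⁻¹' (K ∩ A) : Set (Fin n → E))) = 0 :=
      measure_iUnion_null fun i => Measure.pi_eval_preimage_null _ h1
    calc vc n K ≤ _ := measure_mono h6
      _ ≤ _ := measure_union_le _ _
      _ = vc n (K ∩ B) := by rw [h7, add_zero]; rfl
  refine ⟨⟨hK.conv.inter hB, hK.cpt.inter_right hB', ?_⟩, ?_, ?_, ?_⟩
  · by_contra h6
    have h7 := null_of_int (hK.conv.inter hB) h6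
    rw [h3] at h7
    exact h4.ne' h7
  · unfold ar
    rw [h1]
    rfl
  · unfold ar
    rw [h3]
  · intro n
    unfold w vr ar
    rw [h3, h5]

theorem deg : G_DEG := by
  intro K α β γ hK
  have h : ∀ p, p ∈ HL α β γ ∨ p ∈ HR α β γ := fun p =>
    le_total (α * p.1 + β * p.2) γ
  exact ⟨main hK (convex_HL _ _ _) (closed_HL _ _ _) (convex_HR _ _ _) (closed_HR _ _ _) h,
    main hK (convex_HR _ _ _) (closed_HR _ _ _) (convex_HL _ _ _) (closed_HL _ _ _)
      fun p => (h p).symm⟩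

end RP.PkDEG
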