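import Pool.Agent.Helper26.RP.Goals

/-!
# The upper bound for all bodies
-/

noncomputable section

namespace RP.PkUUB

open MeasureTheory Filter Topology

theorem closed_HL (α β γ : ℝ) : IsClosed (HL α β γ) := by
  unfold HL
  exact isClosed_le (by fun_prop) continuous_const

theorem convex_HL (α β γ : ℝ) : Convex ℝ (HL α β γ) := by
  intro x hx y hy a b ha hb hab
  have h1 : α * x.1 + β * x.2 ≤ γ := hx
  have h2 : α * y.1 + β * y.2 ≤ γ := hy
  show α * (a • x + b • y).1 + β * (a • x + b • y).2 ≤ γ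
  simp only [Prod.fst_add, Prod.snd_add, Prod.smul_fst, Prod.smul_snd, smul_eq_mul]
  have h3 := mul_le_mul_of_nonneg_left h1 ha
  have h4 := mul_le_mul_of_nonneg_left h2 hb
  have h5 : a * γ + b * γ = γ := by rw [← add_mul, hab, one_mul]
  nlinarith

theorem body_inter {K Q : Set E} (hK : Body K) (hQ : Body Q) (hKQ : K ⊆ Q) {α β γ : ℝ}
    (h : K ⊆ HL α β γ) : Body (Q ∩ HL α β γ) where
  conv := hQ.conv.inter (convex_HL _ _ _)
  cpt := hQ.cpt.inter_right (closed_HL _ _ _)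
  int := hK.int.mono (interior_mono (Set.subset_inter hKQ h))

theorem vol_ne_top {K : Set E} (hK : Body K) : volume K ≠ ⊤ := hK.cpt.measure_lt_top.ne

theorem ar_pos {K : Set E} (hK : Body K) : 0 < ar K := by
  refine ENNReal.toReal_pos ?_ (vol_ne_top hK)
  exact ((isOpen_interior.measure_pos volume hK.int).trans_le
    (measure_mono interior_subset)).ne'

theorem vc_mono {K Q : Set E} (h : K ⊆ Q) (n : ℕ) : vc n K ≤ vc n Q :=
  measure_mono fun _ hx => ⟨fun i => h (hx.1 i), hx.2⟩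

theorem vc_ne_top {Q : Set E} (hQ : volume Q ≠ ⊤) (n : ℕ) : vc n Q ≠ ⊤ := by
  have h1 : vc n Q ≤ volume (Set.pi Set.univ fun _ : Fin n => Q) :=
    measure_mono fun x hx i _ => hx.1 i
  rw [volume_pi_pi] at h1
  refine ne_top_of_le_ne_top ?_ h1
  exact ENNReal.prod_ne_top fun _ _ => hQ

theorem w_le {K Q : Set E} (hK : Body K) (hQ : Body Q) (h : K ⊆ Q) {c : ℝ}
    (hc : ar Q ≤ c * ar K) (n : ℕ) : w n K ≤ w n Q * c ^ n := by
  have h1 := ar_pos hK
  have h2 := ar_pos hQ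
  have h3 : vr n K ≤ vr n Q := ENNReal.toReal_mono (vc_ne_top (vol_ne_top hQ) n) (vc_mono h n)
  have h4 : 0 ≤ vr n Q := ENNReal.toReal_nonneg
  have h5 : 0 ≤ w n Q := by unfold w; positivity
  have h6 : (n.factorial : ℝ) * vr n Q = w n Q * ar Q ^ n := by
    unfold w
    field_simp
  have h7 : ar Q ^ n ≤ c ^ n * ar K ^ n := by
    rw [← mul_pow]
    exact pow_le_pow_left₀ h2.le hc n
  unfold w
  rw [div_le_iff₀ (by positivity)]
  calc (n.factorial : ℝ) * vr n K ≤ (n.factorial : ℝ) * vr n Q :=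
        mul_le_mul_of_nonneg_left h3 (by positivity)
    _ = w n Q * ar Q ^ n := h6
    _ ≤ w n Q * (c ^ n * ar K ^ n) := mul_le_mul_of_nonneg_left h7 h5
    _ = _ := by unfold w; ring

theorem uub : G_CUB → G_OUT → G_TRE → G_UUB := by
  intro hCUB hOUT hTRE g hUB hLB K hK ε hε
  have he : 0 < Real.exp (ε / 2) - 1 := by
    have := Real.add_one_lt_exp (x := ε / 2) (by positivity)
    linarith
  obtain ⟨p, q, r, m, α, β, γ, hT, hKT, hab, hKH, hA⟩ := hOUT K hK _ he
  have hTB := (hTRE.1 p q r hT).1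
  have key : ∀ s : Finset (Fin m), Body (tri p q r ∩ ⋂ i ∈ s, HL (α i) (β i) (γ i)) ∧
      K ⊆ tri p q r ∩ ⋂ i ∈ s, HL (α i) (β i) (γ i) ∧
      UB (tri p q r ∩ ⋂ i ∈ s, HL (α i) (β i) (γ i)) g := by
    intro s
    induction s using Finset.induction_on with
    | empty =>
      have e : tri p q r ∩ ⋂ i ∈ (∅ : Finset (Fin m)), HL (α i) (β i) (γ i) = tri p q r := by
        simp
      rw [e]
      exact ⟨hTB, hKT, hUB p q r hT⟩
    | insert a s _ ih =>
      obtain ⟨h1, h2, h3⟩ := ih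
      have e : tri p q r ∩ ⋂ i ∈ insert a s, HL (α i) (β i) (γ i) =
          (tri p q r ∩ ⋂ i ∈ s, HL (α i) (β i) (γ i)) ∩ HL (α a) (β a) (γ a) := by
        rw [Finset.set_biInter_insert, Set.inter_comm (HL (α a) (β a) (γ a)), Set.inter_assoc]
      rw [e]
      have h4 := body_inter hK h1 h2 (hKH a)
      exact ⟨h4, Set.subset_inter h2 (hKH a),
        hCUB _ _ _ _ _ h1 (hab a) h4 h3 fun h5 => hLB _ h5⟩
  obtain ⟨h1, h2, h3⟩ := key Finset.univ
  have e : (⋂ i ∈ (Finset.univ : Finset (Fin m)), HL (α i) (β i) (γ i)) =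
      ⋂ i, HL (α i) (β i) (γ i) := by simp
  rw [e] at h1 h2 h3
  have hc : 1 + (Real.exp (ε / 2) - 1) = Real.exp (ε / 2) := by ring
  rw [hc] at hA
  filter_upwards [h3 (ε / 2) (by positivity)] with n hn
  refine (w_le hK h1 h2 hA n).trans ?_
  rw [← Real.exp_nat_mul]
  calc _ ≤ Real.exp ((g + ε / 2) * n) * Real.exp (n * (ε / 2)) :=
        mul_le_mul_of_nonneg_right hn (Real.exp_pos _).le
    _ = Real.exp ((g + ε) * n) := by
        rw [← Real.exp_add]
        congr 1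
        ring

end RP.PkUUB
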